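import Pool.Agent.V5helper98.NC.Lev

/-!
# Project NC: job REP
-/

set_option autoImplicit false

open Finset

namespace Pool.Agent.V5helper98.NC

open Pool.Agent.Y940.HB (d co Z T card_T mem_T d_add three_d_lt lt_of_d_lt co_pos le_d)
open Pool.Agent.V5helper43.NC

theorem X_eq' (π : Par) (k : ℕ) : π.X (k + 1) = 4 ^ π.m k * 4 ^ (π.s k + π.l (k + 1)) := by
  rw [Par.X, π.m_succ, ← pow_add]
  congr 1
  ring

theorem M_succ' (π : Par) (k : ℕ) : 4 ^ π.m (k + 1) = 4 ^ π.m k * 4 ^ π.s k := by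
  rw [π.m_succ, pow_add]

/-- elements of index `k` and type `c`: of the main set -/
def G1 (π : Par) (c : Bool) (k x : ℕ) : Finset ℕ :=
  (range (2 ^ (π.s k + π.l (k + 1)))).image (fun u => x + 4 ^ π.m k * (co c * d u))

/-- elements of index `k` and type `c`: supplementary elements -/
def G2 (π : Par) (c : Bool) (k x : ℕ) : Finset ℕ :=
  ((univ : Finset Bool) ×ˢ range 2 ×ˢ range (2 ^ (π.s (k + 1) + π.l (k + 2) - π.l (k + 1))) ×ˢ
    range (2 ^ (π.s k + 4))).image
    (fun q => co q.1 * (π.X (k + 1) * d q.2.2.1) + (x + 4 ^ π.m k * (co c * d q.2.2.2)) -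
      q.2.1 * (193 * 4 ^ π.m (k + 1)))

/-- all elements of index `k` and type `c` -/
def G (π : Par) (c : Bool) (k x : ℕ) : Finset ℕ := G1 π c k x ∪ G2 π c k x

/-- the bound -/
def q (π : Par) (k : ℕ) : ℕ := 2 ^ (π.s k + π.s (k + 1) + π.l (k + 2) + 7)

theorem card_G (π : Par) (c : Bool) (k x : ℕ) : (G π c k x).card ≤ q π k := by
  have h1 : (G1 π c k x).card ≤ 2 ^ (π.s k + π.s (k + 1) + π.l (k + 2) + 6) := by
    refine card_image_le.trans ?_
    rw [card_range]
    refine Nat.pow_le_pow_right (by norm_num) ?_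
    have := π.mono (show k + 1 ≤ k + 2 by omega)
    omega
  have h2 : (G2 π c k x).card ≤ 2 ^ (π.s k + π.s (k + 1) + π.l (k + 2) + 6) := by
    refine card_image_le.trans ?_
    rw [card_product, card_product, card_product, card_range, card_range, card_range]
    have h3 : (univ : Finset Bool).card = 2 := by decide
    rw [h3]
    calc 2 * (2 * (2 ^ (π.s (k + 1) + π.l (k + 2) - π.l (k + 1)) * 2 ^ (π.s k + 4)))
        = 2 ^ (π.s (k + 1) + π.l (k + 2) - π.l (k + 1) + (π.s k + 4) + 2) := by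
          rw [pow_add, pow_add]; ring
      _ ≤ _ := by
          refine Nat.pow_le_pow_right (by norm_num) ?_
          omega
  have h3 := card_union_le (G1 π c k x) (G2 π c k x)
  have h4 : q π k = 2 ^ (π.s k + π.s (k + 1) + π.l (k + 2) + 6) +
      2 ^ (π.s k + π.s (k + 1) + π.l (k + 2) + 6) := by
    rw [q, pow_succ]; ring
  rw [G, h4]
  omega

/-- `(F1), (F2)`: the index and the type of an element -/
theorem index {π : Par} (S : Sys π) {J e : ℕ} (he : e ∈ S.A) (heJ : e < π.X (J + 1)) :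
    ∃ k ≤ J, ∃ c, e % 4 ^ π.m k ∈ S.P c k ∧ e ∈ G π c k (e % 4 ^ π.m k) := by
  rcases he with ⟨c, i, h1, h2, p, hp, u, rfl⟩ | ⟨i, c, c', z, ε, a, hz1, hz2, hε, ⟨p, hp, u, rfl⟩, ha, heq⟩
  · have hp1 := S.P_lt c i hp
    have hmod : (p + 4 ^ π.m i * (co c * d u)) % 4 ^ π.m i = p := by
      rw [Nat.add_mul_mod_self_left, Nat.mod_eq_of_lt hp1]
    refine ⟨i, level_le h1 heJ, c, by rw [hmod]; exact hp, ?_⟩
    rw [hmod, G, mem_union]
    left
    rw [G1, mem_image]
    refine ⟨u, ?_, rfl⟩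
    rw [mem_range]
    apply lt_of_d_lt
    rw [X_eq'] at h2
    have h3 : 4 ^ π.m i * (co c * d u) < 4 ^ π.m i * 4 ^ (π.s i + π.l (i + 1)) := by omega
    have h4 := Nat.lt_of_mul_lt_mul_left h3
    have h5 : 1 * d u ≤ co c * d u := Nat.mul_le_mul_right _ (co_pos c)
    omega
  · have hp1 := S.P_lt c' i hp
    have hMM := M_succ' π i
    have hXM := X_eq' π i
    -- the residue
    have hmod : e % 4 ^ π.m i = p := by
      have h1 : (e + 4 ^ π.m i * (ε * (193 * 4 ^ π.s i))) % 4 ^ π.m i = e % 4 ^ π.m i := by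
        rw [Nat.add_mul_mod_self_left]
      have h2 : e + 4 ^ π.m i * (ε * (193 * 4 ^ π.s i)) =
          p + 4 ^ π.m i * (co c' * d u + co c * (4 ^ (π.s i + π.l (i + 1)) * d z)) := by
        rw [hMM, hXM] at heq
        calc e + 4 ^ π.m i * (ε * (193 * 4 ^ π.s i))
            = e + ε * (193 * (4 ^ π.m i * 4 ^ π.s i)) := by ring
          _ = _ := by rw [heq]; ring
      rw [← h1, h2, Nat.add_mul_mod_self_left, Nat.mod_eq_of_lt hp1]
    have hdz : 1 ≤ d z := hz1.trans (le_d z)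
    -- the index
    have hiJ : i ≤ J := by
      by_contra hcon
      have h1 : J + 2 ≤ i + 1 := by omega
      have h2 := X_mono π h1
      have h3 : 4 * π.X (J + 1) ≤ π.X (J + 2) := by
        rw [Par.X, Par.X, ← pow_succ']
        refine Nat.pow_le_pow_right (by norm_num) ?_
        have := π.s_ge (J + 1)
        have h4 := π.mono (show J + 1 ≤ J + 2 by omega)
        have h5 : π.m (J + 2) = π.m (J + 1) + π.s (J + 1) := π.m_succ (J + 1)
        omega
      have h6 : 1024 * 4 ^ π.m (i + 1) ≤ π.X (i + 1) := by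
        rw [Par.X, pow_add]
        have h7 : 4 ^ 5 ≤ 4 ^ π.l (i + 1) := Nat.pow_le_pow_right (by norm_num) (π.five _)
        calc 1024 * 4 ^ π.m (i + 1) = 4 ^ π.m (i + 1) * 4 ^ 5 := by ring
          _ ≤ _ := Nat.mul_le_mul_left _ h7
      have h8 : π.X (i + 1) ≤ co c * (π.X (i + 1) * d z) := by
        calc π.X (i + 1) = 1 * (π.X (i + 1) * 1) := by ring
          _ ≤ co c * (π.X (i + 1) * d z) :=
            Nat.mul_le_mul (co_pos c) (Nat.mul_le_mul_left _ hdz)
      have h9 : ε * (193 * 4 ^ π.m (i + 1)) ≤ 1 * (193 * 4 ^ π.m (i + 1)) :=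
        Nat.mul_le_mul_right _ hε
      omega
    refine ⟨i, hiJ, c', by rw [hmod]; exact hp, ?_⟩
    rw [hmod, G, mem_union]
    right
    rw [G2, mem_image]
    refine ⟨(c, ε, z, u), ?_, by simp only; omega⟩
    simp only [mem_product, mem_univ, mem_range, true_and]
    refine ⟨by omega, hz2, ?_⟩
    apply lt_of_d_lt
    rw [hMM] at ha
    have h3 : 4 ^ π.m i * (co c' * d u) < 4 ^ π.m i * 4 ^ (π.s i + 4) := by
      have : 256 * (4 ^ π.m i * 4 ^ π.s i) = 4 ^ π.m i * 4 ^ (π.s i + 4) := by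
        rw [pow_add (4 : ℕ) (π.s i) 4]; ring
      omega
    have h4 := Nat.lt_of_mul_lt_mul_left h3
    have h5 : 1 * d u ≤ co c' * d u := Nat.mul_le_mul_right _ (co_pos c')
    omega

/-- pairs of residues -/
def RP {π : Par} (S : Sys π) (n : ℕ) (k : ℕ) (c c' : Bool) : Finset (ℕ × ℕ) :=
  (S.P c k ×ˢ S.P c' k).filter (fun r => (r.1 + r.2) % 4 ^ π.m k = n % 4 ^ π.m k)

theorem zb_pos (π : Par) (k : ℕ) : 1 ≤ π.zb k := by
  unfold Par.zb
  have : 0 < 4 * 2 ^ π.s k * (k + 1) * (k + 1 + 2 * π.m k) := by positivity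
  exact this

theorem card_RP {π : Par} (S : Sys π) (n k : ℕ) (c c' : Bool) : (RP S n k c c').card ≤ π.zb k := by
  by_cases hcc : c = c'
  · subst hcc
    exact S.hZ c k n
  · refine le_trans ?_ (zb_pos π k)
    rw [card_le_one]
    rintro ⟨x, y⟩ h ⟨x', y'⟩ h'
    simp only [RP, mem_filter, mem_product] at h h'
    obtain ⟨⟨h1, h2⟩, h3⟩ := h
    obtain ⟨⟨h4, h5⟩, h6⟩ := h'
    have h7 : x + y ≡ x' + y' [MOD 4 ^ π.m k] := by
      unfold Nat.ModEq
      rw [h3, h6]
    cases c <;> cases c' <;> simp at hcc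
    · have h8 : y + x ≡ y' + x' [MOD 4 ^ π.m k] := by rwa [add_comm y x, add_comm y' x']
      obtain ⟨rfl, rfl⟩ := S.decode_unique k h2 h1 h5 h4 h8
      rfl
    · obtain ⟨rfl, rfl⟩ := S.decode_unique k h1 h2 h4 h5 h7
      rfl

/-- pairs with sum `n` and smaller index `k` -/
def RK {π : Par} (S : Sys π) (n : ℕ) (k : ℕ) (c c' : Bool) : Finset (ℕ × ℕ) :=
  (RP S n k c c').biUnion (fun r => (G π c k r.1).image (fun e => (e, n - e)))

theorem card_RK {π : Par} (S : Sys π) (n k : ℕ) (c c' : Bool) :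
    (RK S n k c c').card ≤ π.zb k * q π k := by
  refine (card_biUnion_le_card_mul _ _ (q π k) ?_).trans (Nat.mul_le_mul_right _ (card_RP S n k c c'))
  intro r _
  exact card_image_le.trans (card_G π c k r.1)

/-- all pairs -/
def RA {π : Par} (S : Sys π) (n J : ℕ) : Finset (ℕ × ℕ) :=
  (range (J + 1) ×ˢ (univ : Finset Bool) ×ˢ (univ : Finset Bool)).biUnion
    (fun t => RK S n t.1 t.2.1 t.2.2)

theorem s_mono' (π : Par) {i j : ℕ} (h : i ≤ j) : π.s i ≤ π.s j := π.s_mono h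

theorem zb_mono (π : Par) {i j : ℕ} (h : i ≤ j) : π.zb i ≤ π.zb j := by
  unfold Par.zb
  have h1 : 2 ^ π.s i ≤ 2 ^ π.s j := Nat.pow_le_pow_right (by norm_num) (π.s_mono h)
  have h2 := π.m_mono h
  exact Nat.mul_le_mul (Nat.mul_le_mul (Nat.mul_le_mul_left _ h1) (by omega)) (by omega)

theorem q_mono (π : Par) {i j : ℕ} (h : i ≤ j) : q π i ≤ q π j := by
  unfold q
  refine Nat.pow_le_pow_right (by norm_num) ?_
  have h1 := π.s_mono h
  have h2 := π.s_mono (show i + 1 ≤ j + 1 by omega)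
  have h3 := π.mono (show i + 2 ≤ j + 2 by omega)
  omega

theorem card_RA {π : Par} (S : Sys π) (n J : ℕ) :
    (RA S n J).card ≤ (J + 1) * 4 * (π.zb J * q π J) := by
  refine (card_biUnion_le_card_mul _ _ (π.zb J * q π J) ?_).trans ?_
  · rintro ⟨k, c, c'⟩ hk
    simp only [mem_product, mem_range, mem_univ, and_true] at hk
    refine (card_RK S n k c c').trans (Nat.mul_le_mul (zb_mono π ?_) (q_mono π ?_)) <;> omega
  · rw [card_product, card_product, card_range]
    have h3 : (univ : Finset Bool).card = 2 := by decide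
    rw [h3]

theorem mem_RA {π : Par} (S : Sys π) {n J k k' e f : ℕ} {c c' : Bool} (hk : k ≤ J)
    (hkk : k ≤ k') (hsum : e + f = n) (he : e % 4 ^ π.m k ∈ S.P c k)
    (heG : e ∈ G π c k (e % 4 ^ π.m k)) (hf : f % 4 ^ π.m k' ∈ S.P c' k') :
    (e, f) ∈ RA S n J := by
  rw [RA, mem_biUnion]
  refine ⟨(k, c, c'), ?_, ?_⟩
  · simp only [mem_product, mem_range, mem_univ, and_true]
    omega
  · simp only [RK, mem_biUnion]
    have hf2 := S.P_mod c' hkk _ hf
    have hdvd : 4 ^ π.m k ∣ 4 ^ π.m k' := pow_dvd_pow 4 (π.m_mono hkk)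
    rw [Nat.mod_mod_of_dvd _ hdvd] at hf2
    refine ⟨(e % 4 ^ π.m k, f % 4 ^ π.m k), ?_, ?_⟩
    · simp only [RP, mem_filter, mem_product]
      refine ⟨⟨he, hf2⟩, ?_⟩
      rw [← Nat.add_mod, hsum]
    · rw [mem_image]
      refine ⟨e, heG, ?_⟩
      have : n - e = f := by omega
      rw [this]

theorem t_REP : S_REP := by
  intro π S J n hn
  have hsub : {p : ℕ × ℕ | p.1 ∈ S.A ∧ p.2 ∈ S.A ∧ p.1 + p.2 = n} ⊆
      ((RA S n J ∪ (RA S n J).image Prod.swap : Finset (ℕ × ℕ)) : Set (ℕ × ℕ)) := by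
    rintro ⟨e, f⟩ ⟨he, hf, hef⟩
    simp only at he hf hef
    obtain ⟨k, hk, c, h1, h2⟩ := index S he (show e < π.X (J + 1) by omega)
    obtain ⟨k', hk', c', h1', h2'⟩ := index S hf (show f < π.X (J + 1) by omega)
    rw [mem_coe, mem_union]
    rcases le_total k k' with hkk | hkk
    · left
      exact mem_RA S hk hkk hef h1 h2 h1'
    · right
      rw [mem_image]
      exact ⟨(f, e), mem_RA S hk' hkk (by omega) h1' h2' h1, rfl⟩
  unfold rep
  refine (Set.ncard_le_ncard hsub (Finset.finite_toSet _)).trans ?_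
  rw [Set.ncard_coe_finset]
  have h1 := card_union_le (RA S n J) ((RA S n J).image Prod.swap)
  have h2 : ((RA S n J).image Prod.swap).card ≤ (RA S n J).card := card_image_le
  have h3 := card_RA S n J
  have h4 : 8 * (J + 1) * π.zb J * 2 ^ (π.s J + π.s (J + 1) + π.l (J + 2) + 7) =
      2 * ((J + 1) * 4 * (π.zb J * q π J)) := by
    rw [q]; ring
  rw [h4]
  omega

end Pool.Agent.V5helper98.NC
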