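import Pool.Agent.V5helper98.NC.Lev

/-!
# Project NC: job SAME
-/

set_option autoImplicit false

open Finset

namespace Pool.Agent.V5helper98.NC

open Pool.Agent.Y940.HB (d co Z T card_T mem_T d_add three_d_lt lt_of_d_lt co_pos)
open Pool.Agent.V5helper43.NC

theorem A0_div {π : Par} (S : Sys π) {c : Bool} {J k a : ℕ} (ha : a ∈ S.A0 c) (hak : a < 4 ^ k)
    (hk : k ≤ π.m (J + 1) + π.l (J + 1)) : ∃ u, a / 4 ^ π.m J = co c * d u := by
  obtain ⟨i, h1, h2, h3⟩ := ha
  have h4 : a < π.X (J + 1) := lt_of_lt_of_le hak (Nat.pow_le_pow_right (by norm_num) hk)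
  exact U_div S h3 (level_le h1 h4)

/-- the finite set which contains the sums -/
def sameSet (J k M : ℕ) : Finset ℕ :=
  ((univ : Finset Bool) ×ˢ range 2 ×ˢ T (k - J) ×ˢ range M).image
    (fun q => M * (co q.1 * q.2.2.1 + q.2.1) + q.2.2.2)

theorem card_sameSet (J k M : ℕ) : (sameSet J k M).card ≤ 4 * M * 3 ^ (k - J) := by
  refine card_image_le.trans ?_
  rw [card_product, card_product, card_product, card_range, card_range]
  have h := card_T (k - J)
  have h1 : (univ : Finset Bool).card = 2 := by decide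
  rw [h1]
  calc 2 * (2 * ((T (k - J)).card * M)) = 4 * M * (T (k - J)).card := by ring
    _ ≤ 4 * M * 3 ^ (k - J) := Nat.mul_le_mul_left _ h

theorem same_sub {π : Par} (S : Sys π) {J k : ℕ} (hk : k ≤ π.m (J + 1) + π.l (J + 1))
    (hmk : π.m J ≤ k) :
    {n | n < 4 ^ k ∧ ∃ c, ∃ a ∈ S.A0 c, ∃ b ∈ S.A0 c, a + b = n} ⊆
      (sameSet (π.m J) k (4 ^ π.m J) : Set ℕ) := by
  rintro n ⟨hn, c, a, ha, b, hb, rfl⟩
  obtain ⟨u, hu⟩ := A0_div S ha (by omega) hk
  obtain ⟨w, hw⟩ := A0_div S hb (by omega) hk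
  set M := 4 ^ π.m J with hM
  have hM0 : 0 < M := by positivity
  have h4k : 4 ^ k = M * 4 ^ (k - π.m J) := by
    rw [hM, ← pow_add, Nat.add_sub_cancel' hmk]
  have ha1 := Nat.div_add_mod a M
  have hb1 := Nat.div_add_mod b M
  have ha2 := Nat.mod_lt a hM0
  have hb2 := Nat.mod_lt b hM0
  rw [hu] at ha1
  rw [hw] at hb1
  set δ := (a % M + b % M) / M with hδ
  set r := (a % M + b % M) % M with hr
  have hδ1 : δ < 2 := by
    rw [hδ, Nat.div_lt_iff_lt_mul hM0]; omega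
  have hδr : M * δ + r = a % M + b % M := Nat.div_add_mod _ _
  have hsum : a + b = M * (co c * (d u + d w) + δ) + r := by
    have e1 : M * (co c * (d u + d w) + δ) + r
        = M * (co c * d u) + M * (co c * d w) + (M * δ + r) := by ring
    rw [e1, hδr]
    omega
  have hlt : d u + d w < 4 ^ (k - π.m J) := by
    have h1 : M * (co c * (d u + d w)) < M * 4 ^ (k - π.m J) := by
      rw [← h4k]
      refine lt_of_le_of_lt ?_ hn
      rw [hsum]
      have : M * (co c * (d u + d w)) ≤ M * (co c * (d u + d w) + δ) :=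
        Nat.mul_le_mul_left _ (Nat.le_add_right _ _)
      omega
    have h2 := Nat.lt_of_mul_lt_mul_left h1
    have h3 : 1 * (d u + d w) ≤ co c * (d u + d w) := Nat.mul_le_mul_right _ (co_pos c)
    omega
  rw [mem_coe, sameSet, mem_image]
  refine ⟨(c, δ, d u + d w, r), ?_, hsum.symm⟩
  simp only [mem_product, mem_univ, mem_range, true_and]
  exact ⟨hδ1, mem_T _ _ _ hlt, Nat.mod_lt _ hM0⟩

theorem t_SAME : S_SAME := by
  intro π S j k h1 h2
  set J := j + 2 with hJ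
  have hsub := same_sub S (J := J) h2 (by omega)
  have hcard : {n | n < 4 ^ k ∧ ∃ c, ∃ a ∈ S.A0 c, ∃ b ∈ S.A0 c, a + b = n}.ncard ≤
      4 * 4 ^ π.m J * 3 ^ (k - π.m J) := by
    refine (Set.ncard_le_ncard hsub (Finset.finite_toSet _)).trans ?_
    rw [Set.ncard_coe_finset]
    exact card_sameSet _ _ _
  obtain ⟨e, he⟩ : ∃ e, k = π.m J + π.l J + e := ⟨k - (π.m J + π.l J), by omega⟩
  have hk1 : k - π.m J = π.l J + e := by omega
  rw [hk1] at hcard
  refine (Nat.mul_le_mul_right _ hcard).trans ?_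
  have h3 : 3 ^ e ≤ 4 ^ e := Nat.pow_le_pow_left (by norm_num) _
  calc 4 * 4 ^ π.m J * 3 ^ (π.l J + e) * 4 ^ π.l J
      = 4 * 4 ^ π.m J * 3 ^ π.l J * 4 ^ π.l J * 3 ^ e := by rw [pow_add]; ring
    _ ≤ 4 * 4 ^ π.m J * 3 ^ π.l J * 4 ^ π.l J * 4 ^ e := Nat.mul_le_mul_left _ h3
    _ = 4 * 4 ^ k * 3 ^ π.l J := by rw [he, pow_add, pow_add]; ring

end Pool.Agent.V5helper98.NC
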