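import Pool.Agent.V5helper43.NC.Stm

/-!
# Project NC: levels
-/

set_option autoImplicit false

open Finset

namespace Pool.Agent.V5helper98.NC

open Pool.Agent.Y940.HB (d co Z T card_T mem_T d_add three_d_lt lt_of_d_lt co_pos)
open Pool.Agent.V5helper43.NC

theorem l_mono (π : Par) {i j : ℕ} (h : i ≤ j) : π.l i ≤ π.l j := π.mono h

theorem X_exp_mono (π : Par) {i j : ℕ} (h : i ≤ j) : π.m i + π.l i ≤ π.m j + π.l j :=
  Nat.add_le_add (π.m_mono h) (π.mono h)

theorem X_mono (π : Par) {i j : ℕ} (h : i ≤ j) : π.X i ≤ π.X j :=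
  Nat.pow_le_pow_right (by norm_num) (X_exp_mono π h)

/-- the level of an element below `X (J + 1)` is at most `J` -/
theorem level_le {π : Par} {i J a : ℕ} (h1 : π.X i ≤ a) (h2 : a < π.X (J + 1)) : i ≤ J := by
  by_contra hcon
  have : J + 1 ≤ i := by omega
  have := X_mono π this
  omega

theorem M_split (π : Par) {i j : ℕ} (h : i ≤ j) :
    4 ^ π.m j = 4 ^ π.m i * 4 ^ (π.m j - π.m i) := by
  rw [← pow_add, Nat.add_sub_cancel' (π.m_mono h)]

theorem co_le (c : Bool) : co c ≤ 2 := by cases c <;> simp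

/-- the upper part of an element of `U c i` -/
theorem U_div {π : Par} (S : Sys π) {c : Bool} {i J a : ℕ} (ha : a ∈ S.U c i) (hiJ : i ≤ J) :
    ∃ u, a / 4 ^ π.m J = co c * d u := by
  obtain ⟨p, hp, w, rfl⟩ := ha
  have hp1 := S.P_lt c i hp
  set e := π.m J - π.m i with he
  refine ⟨w / 2 ^ e, ?_⟩
  have h1 := d_add e (w % 2 ^ e) (w / 2 ^ e) (Nat.mod_lt _ (by positivity))
  rw [Nat.mod_add_div] at h1
  have h2 := three_d_lt e (w % 2 ^ e) (Nat.mod_lt _ (by positivity))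
  have h3 : co c * d (w % 2 ^ e) + 1 ≤ 4 ^ e := by
    have : co c * d (w % 2 ^ e) ≤ 2 * d (w % 2 ^ e) := Nat.mul_le_mul_right _ (co_le c)
    omega
  have h4 : p + 4 ^ π.m i * (co c * d (w % 2 ^ e)) < 4 ^ π.m J := by
    rw [M_split π hiJ, ← he]
    calc p + 4 ^ π.m i * (co c * d (w % 2 ^ e)) < 4 ^ π.m i + 4 ^ π.m i * (co c * d (w % 2 ^ e)) := by
          omega
      _ = 4 ^ π.m i * (co c * d (w % 2 ^ e) + 1) := by ring
      _ ≤ 4 ^ π.m i * 4 ^ e := Nat.mul_le_mul_left _ h3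
  have h5 : p + 4 ^ π.m i * (co c * d w) =
      (p + 4 ^ π.m i * (co c * d (w % 2 ^ e))) + 4 ^ π.m J * (co c * d (w / 2 ^ e)) := by
    rw [h1, M_split π hiJ, ← he]
    ring
  rw [h5, Nat.add_mul_div_left _ _ (by positivity), Nat.div_eq_of_lt h4, zero_add]

end Pool.Agent.V5helper98.NC
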